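import Mathlib

set_option autoImplicit false

namespace Pool.Agent.H72TC

open scoped TensorProduct

theorem D_aeval {L : Type} [Field L] (A : Subring L) {ι : Type} [Fintype ι] (x : ι → L)
    (p : MvPolynomial ι A) :
    KaehlerDifferential.D A L (MvPolynomial.aeval x p) =
      ∑ i, MvPolynomial.aeval x (MvPolynomial.pderiv i p) • KaehlerDifferential.D A L (x i) := by
  classical
  induction p using MvPolynomial.induction_on with
  | C a =>
    rw [MvPolynomial.aeval_C, Derivation.map_algebraMap]
    simp
  | add p q hp hq =>
    simp only [map_add, hp, hq, add_smul, Finset.sum_add_distrib]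
  | mul_X p j hp =>
    rw [map_mul, MvPolynomial.aeval_X, Derivation.leibniz, hp, Finset.smul_sum]
    have h1 : ∀ i, MvPolynomial.aeval x (MvPolynomial.pderiv i (p * MvPolynomial.X j)) •
        KaehlerDifferential.D A L (x i) =
        (if i = j then MvPolynomial.aeval x p • KaehlerDifferential.D A L (x j) else 0) +
          x j • (MvPolynomial.aeval x (MvPolynomial.pderiv i p) •
            KaehlerDifferential.D A L (x i)) := by
      intro i
      rw [MvPolynomial.pderiv_mul, map_add, map_mul, map_mul, MvPolynomial.aeval_X, add_smul,
        add_comm, smul_smul, mul_comm (x j)]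
      congr 1
      by_cases hij : i = j
      · subst hij
        rw [if_pos rfl, MvPolynomial.pderiv_X_self, map_one, mul_one]
      · rw [if_neg hij, MvPolynomial.pderiv_X_of_ne (fun h => hij h.symm), map_zero, mul_zero,
          zero_smul]
    rw [Finset.sum_congr rfl fun i _ => h1 i, Finset.sum_add_distrib, Finset.sum_ite_eq',
      if_pos (Finset.mem_univ j)]

theorem alg_aux {L : Type} [Field L] [CharZero L] (A : Subring L) {ι : Type} [Fintype ι]
    (x : ι → L) (h : LinearIndependent L (fun i => KaehlerDifferential.D A L (x i))) (N : ℕ) :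
    ∀ p : MvPolynomial ι A, (∀ m, MvPolynomial.coeff m p ≠ 0 → m.degree ≤ N) →
      MvPolynomial.aeval x p = 0 → p = 0 := by
  classical
  induction N with
  | zero =>
    intro p hp h0
    have hC : p = MvPolynomial.C (MvPolynomial.coeff 0 p) := by
      refine MvPolynomial.ext _ _ fun m => ?_
      rw [MvPolynomial.coeff_C]
      by_cases hm : 0 = m
      · rw [if_pos hm, hm]
      · rw [if_neg hm]
        by_contra hc
        have h1 := hp m hc
        exact hm ((Finsupp.degree_eq_zero_iff m).1 (Nat.le_zero.1 h1)).symm
    rw [hC, MvPolynomial.aeval_C] at h0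
    have h2 : MvPolynomial.coeff 0 p = 0 := Subtype.ext h0
    rw [hC, h2, map_zero]
  | succ N ih =>
    intro p hp h0
    have hD := D_aeval A x p
    rw [h0, map_zero] at hD
    have hz : ∀ i, MvPolynomial.aeval x (MvPolynomial.pderiv i p) = 0 := fun i =>
      (linearIndependent_iff'.1 h) Finset.univ _ hD.symm i (Finset.mem_univ i)
    have hpd : ∀ i, MvPolynomial.pderiv i p = 0 := by
      intro i
      refine ih _ ?_ (hz i)
      intro m hm
      rw [MvPolynomial.coeff_pderiv] at hm
      have h1 := hp _ (left_ne_zero_of_mul hm)
      rw [map_add, Finsupp.degree_single] at h1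
      omega
    have hc : ∀ m, MvPolynomial.coeff m p ≠ 0 → m = 0 := by
      intro m hm
      by_contra hne
      obtain ⟨i, hi⟩ := Finsupp.ne_iff.1 hne
      have hi' : 1 ≤ m i := Nat.one_le_iff_ne_zero.2 hi
      have e : m - Finsupp.single i 1 + Finsupp.single i 1 = m :=
        tsub_add_cancel_of_le (Finsupp.single_le_iff.2 hi')
      have h1 : MvPolynomial.coeff (m - Finsupp.single i 1) (MvPolynomial.pderiv i p) = 0 := by
        rw [hpd i, MvPolynomial.coeff_zero]
      rw [MvPolynomial.coeff_pderiv, e] at h1
      rcases mul_eq_zero.1 h1 with h2 | h2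
      · exact hm h2
      · have h3 := congrArg (fun a : A => (a : L)) h2
        push_cast at h3
        have h4 : ((((m - Finsupp.single i 1 : ι →₀ ℕ) i) + 1 : ℕ) : L) = 0 := by
          push_cast
          exact h3
        exact Nat.succ_ne_zero _ (Nat.cast_eq_zero.1 h4)
    have hC : p = MvPolynomial.C (MvPolynomial.coeff 0 p) := by
      refine MvPolynomial.ext _ _ fun m => ?_
      rw [MvPolynomial.coeff_C]
      by_cases hm : 0 = m
      · rw [if_pos hm, hm]
      · rw [if_neg hm]
        by_contra hc'
        exact hm (hc m hc').symm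
    rw [hC, MvPolynomial.aeval_C] at h0
    have h2 : MvPolynomial.coeff 0 p = 0 := Subtype.ext h0
    rw [hC, h2, map_zero]

/-- Elements of a field of characteristic zero with linearly independent differentials are
algebraically independent. -/
theorem alg_of_lin {L : Type} [Field L] [CharZero L] (A : Subring L) {ι : Type} [Finite ι]
    (x : ι → L) (h : LinearIndependent L (fun i => KaehlerDifferential.D A L (x i))) :
    AlgebraicIndependent A x := by
  classical
  have _ : Fintype ι := Fintype.ofFinite ι
  rw [algebraicIndependent_iff]
  intro p hp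
  refine alg_aux A x h (p.support.sup Finsupp.degree) p ?_ hp
  intro m hm
  exact Finset.le_sup (f := Finsupp.degree) (MvPolynomial.mem_support_iff.2 hm)

end Pool.Agent.H72TC
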