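import Mathlib

set_option autoImplicit false

open scoped TensorProduct

namespace Pool.Agent.H72TC

/-- Algebraically independent elements of a field of characteristic zero have linearly
independent differentials. -/
theorem lin_of_alg {L : Type} [Field L] [CharZero L] (A : Subring L) {ι : Type} [Finite ι]
    (x : ι → L) (h : AlgebraicIndependent A x) :
    LinearIndependent L (fun i => KaehlerDifferential.D A L (x i)) := by
  classical
  obtain ⟨t, ht, hb⟩ := exists_isTranscendenceBasis_superset (R := A) (s := Set.range x)
    h.coe_range
  let y : t → L := (↑)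
  let S := Algebra.adjoin A (Set.range y)
  have halg : Algebra.IsAlgebraic S L := hb.isAlgebraic
  let _ : Algebra (FractionRing S) L := FractionRing.liftAlgebra S L
  have _ : IsScalarTower S (FractionRing S) L := FractionRing.isScalarTower_liftAlgebra S L
  have _ : Algebra.IsAlgebraic (FractionRing S) L :=
    (IsFractionRing.comap_isAlgebraic_iff (A := S) (K := FractionRing S) (C := L)).1 halg
  have _ : CharZero (FractionRing S) :=
    charZero_of_injective_algebraMap (R := S) (IsFractionRing.injective S (FractionRing S))
  have _ : Algebra.FormallyEtale (FractionRing S) L :=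
    Algebra.FormallyEtale.of_isSeparable (FractionRing S) L
  have _ : Algebra.FormallyEtale S (FractionRing S) :=
    Algebra.FormallyEtale.of_isLocalization (nonZeroDivisors S)
  have _ : Algebra.FormallyEtale S L := Algebra.FormallyEtale.comp S (FractionRing S) L
  let e : MvPolynomial t A ≃ₐ[A] S := hb.1.aevalEquiv
  have he : ∀ j : t, algebraMap S L (e (MvPolynomial.X j)) = y j := by
    intro j
    have h1 := hb.1.algebraMap_aevalEquiv (MvPolynomial.X j)
    rw [MvPolynomial.aeval_X] at h1
    exact h1
  have key : ∀ i : t, ∃ φ : Ω[L⁄A] →ₗ[L] L, ∀ j : t,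
      φ (KaehlerDifferential.D A L (y j)) = if j = i then 1 else 0 := by
    intro i
    let d : Derivation A S L := Derivation.mk'
      ((IsScalarTower.toAlgHom A S L).toLinearMap ∘ₗ e.toLinearMap ∘ₗ
        ((MvPolynomial.pderiv i : Derivation A (MvPolynomial t A) (MvPolynomial t A)) :
          MvPolynomial t A →ₗ[A] MvPolynomial t A) ∘ₗ e.symm.toLinearMap) (by
      intro a b
      simp only [LinearMap.comp_apply, AlgEquiv.toLinearMap_apply, AlgHom.toLinearMap_apply,
        Derivation.coeFn_coe, map_mul, Derivation.leibniz, smul_eq_mul, map_add,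
        AlgEquiv.apply_symm_apply, IsScalarTower.coe_toAlgHom']
      rw [Algebra.smul_def, Algebra.smul_def])
    refine ⟨(LinearMap.liftBaseChange L d.liftKaehlerDifferential) ∘ₗ
      (KaehlerDifferential.tensorKaehlerEquivOfFormallyEtale A S L).symm.toLinearMap, ?_⟩
    intro j
    rw [← he j, LinearMap.comp_apply, LinearEquiv.coe_coe,
      KaehlerDifferential.tensorKaehlerEquivOfFormallyEtale_symm_D_algebraMap,
      LinearMap.liftBaseChange_tmul, one_smul, Derivation.liftKaehlerDifferential_comp_D]
    show algebraMap S L (e (MvPolynomial.pderiv i (e.symm (e (MvPolynomial.X j))))) = _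
    rw [AlgEquiv.symm_apply_apply, MvPolynomial.pderiv_X]
    by_cases hij : j = i
    · subst hij
      simp
    · rw [if_neg hij, Pi.single_eq_of_ne hij, map_zero, map_zero]
  have hlin : LinearIndependent L (fun j : t => KaehlerDifferential.D A L (y j)) := by
    rw [linearIndependent_iff']
    intro s g hg i hi
    obtain ⟨φ, hφ⟩ := key i
    have h1 := congrArg φ hg
    rw [map_sum, map_zero] at h1
    simp only [map_smul, hφ, smul_eq_mul, mul_ite, mul_one, mul_zero] at h1
    rw [Finset.sum_ite_eq' s i g, if_pos hi] at h1
    exact h1
  have hinj : Function.Injective x := h.injective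
  exact hlin.comp (fun i => (⟨x i, ht ⟨i, rfl⟩⟩ : t)) (fun i j hij => hinj (by
    have := congrArg Subtype.val hij
    exact this))

end Pool.Agent.H72TC
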