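import Mathlib

set_option autoImplicit false

open Cardinal

namespace Pool.Agent.H72TC

/-- A countable field of characteristic zero embeds into the complex numbers. -/
theorem exists_embedding {K : Type} [Field K] [CharZero K] (hK : #K ≤ ℵ₀) :
    Nonempty (K →+* ℂ) := by
  have h0 : CharZero (FractionRing (MvPolynomial ℝ K)) :=
    charZero_of_injective_algebraMap (R := MvPolynomial ℝ K)
      (IsFractionRing.injective (MvPolynomial ℝ K) (FractionRing (MvPolynomial ℝ K)))
  have h1 : CharZero (AlgebraicClosure (FractionRing (MvPolynomial ℝ K))) :=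
    charZero_of_injective_algebraMap
      (algebraMap (FractionRing (MvPolynomial ℝ K))
        (AlgebraicClosure (FractionRing (MvPolynomial ℝ K)))).injective
  have hP : #(MvPolynomial ℝ K) ≤ 𝔠 := by
    refine MvPolynomial.cardinalMk_le_max.trans ?_
    refine max_le (max_le (hK.trans aleph0_le_continuum) (le_of_eq mk_real)) aleph0_le_continuum
  have hF : #(FractionRing (MvPolynomial ℝ K)) ≤ 𝔠 := by
    have h := Cardinal.mk_le_of_surjective
      (f := fun p : MvPolynomial ℝ K × nonZeroDivisors (MvPolynomial ℝ K) =>
        IsLocalization.mk' (FractionRing (MvPolynomial ℝ K)) p.1 p.2)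
      (fun x => by
        obtain ⟨a, b, h⟩ := IsLocalization.exists_mk'_eq (nonZeroDivisors (MvPolynomial ℝ K)) x
        exact ⟨(a, b), h⟩)
    refine h.trans ?_
    rw [← Cardinal.mul_def]
    refine (mul_le_mul' hP ((Cardinal.mk_subtype_le _).trans hP)).trans ?_
    rw [continuum_mul_self]
  have hM : #(AlgebraicClosure (FractionRing (MvPolynomial ℝ K))) = 𝔠 := by
    apply le_antisymm
    · exact (Algebra.IsAlgebraic.cardinalMk_le_max (FractionRing (MvPolynomial ℝ K)) _).trans
        (max_le hF aleph0_le_continuum)
    · rw [← mk_real]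
      refine Cardinal.mk_le_of_injective (f := fun r : ℝ =>
        algebraMap (FractionRing (MvPolynomial ℝ K))
          (AlgebraicClosure (FractionRing (MvPolynomial ℝ K)))
          (algebraMap (MvPolynomial ℝ K) (FractionRing (MvPolynomial ℝ K))
            (MvPolynomial.X r))) ?_
      intro r s h
      have h2 := (algebraMap (FractionRing (MvPolynomial ℝ K))
        (AlgebraicClosure (FractionRing (MvPolynomial ℝ K)))).injective h
      have h3 := IsFractionRing.injective (MvPolynomial ℝ K) (FractionRing (MvPolynomial ℝ K)) h2
      exact MvPolynomial.X_injective h3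
  obtain ⟨e⟩ := IsAlgClosed.ringEquiv_of_equiv_of_charZero
    (K := AlgebraicClosure (FractionRing (MvPolynomial ℝ K))) (L := ℂ)
    (by rw [hM]; exact aleph0_lt_continuum) (Cardinal.eq.1 (by rw [hM, mk_complex]))
  exact ⟨e.toRingHom.comp ((algebraMap (FractionRing (MvPolynomial ℝ K))
    (AlgebraicClosure (FractionRing (MvPolynomial ℝ K)))).comp
    ((algebraMap (MvPolynomial ℝ K) (FractionRing (MvPolynomial ℝ K))).comp MvPolynomial.C))⟩

/-- Linear dependences of finitely many vectors over a field of characteristic zero are those of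
vectors over the complex numbers. -/
theorem to_complex {L : Type} [Field L] [CharZero L] {V : Type} [AddCommGroup V] [Module L V]
    {n : ℕ} (v : Fin n → V) : ∃ (m : ℕ) (w : Fin n → Fin m → ℂ), ∀ F : Finset (Fin n),
      LinearIndependent L (fun i : F => v i) ↔ LinearIndependent ℂ (fun i : F => w i) := by
  classical
  let S : Submodule L V := Submodule.span L (Set.range v)
  have hS : FiniteDimensional L S := FiniteDimensional.span_of_finite L (Set.finite_range v)
  let b : Module.Basis (Fin (Module.finrank L S)) L S := Module.finBasis L S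
  let v' : Fin n → S := fun i => ⟨v i, Submodule.subset_span ⟨i, rfl⟩⟩
  let a : Fin n → Fin (Module.finrank L S) → L := fun i => b.equivFun (v' i)
  have h1 : ∀ F : Finset (Fin n), LinearIndependent L (fun i : F => v i) ↔
      LinearIndependent L (fun i : F => a i) := by
    intro F
    have e1 : (fun i : F => v i) = S.subtype ∘ (fun i : F => v' i) := rfl
    have e2 : (fun i : F => a i) = b.equivFun.toLinearMap ∘ (fun i : F => v' i) := rfl
    rw [e1, e2, LinearMap.linearIndependent_iff _ (Submodule.ker_subtype _),
      LinearMap.linearIndependent_iff _ (LinearEquiv.ker _)]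
  let K : Subfield L :=
    Subfield.closure (Set.range (fun p : Fin n × Fin (Module.finrank L S) => a p.1 p.2))
  have hK : #K ≤ ℵ₀ :=
    (Subfield.cardinalMk_closure_le_max _).trans (max_le Cardinal.mk_le_aleph0 le_rfl)
  have ha : ∀ i j, a i j ∈ K := fun i j => Subfield.subset_closure ⟨(i, j), rfl⟩
  let a' : Fin n → Fin (Module.finrank L S) → K := fun i j => ⟨a i j, ha i j⟩
  have hc : CharZero K := ⟨fun x y h => by
    have h2 := congrArg (fun z : K => (z : L)) h
    simpa using h2⟩
  obtain ⟨φ⟩ := exists_embedding (K := K) hK
  let _ : Algebra K ℂ := φ.toAlgebra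
  refine ⟨Module.finrank L S, fun i j => φ (a' i j), fun F => ?_⟩
  rw [h1 F]
  have h2 : LinearIndependent L (fun i : F => algebraMap K L ∘ a' i) ↔
      LinearIndependent K (fun i : F => a' i) := linearIndependent_algebraMap_comp_iff
  have h3 : LinearIndependent ℂ (fun i : F => algebraMap K ℂ ∘ a' i) ↔
      LinearIndependent K (fun i : F => a' i) := linearIndependent_algebraMap_comp_iff
  exact h2.trans h3.symm

end Pool.Agent.H72TC
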